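import Pool.Agent.helper79.WB.SpecII

/-!
# MP_bb5cc8: row CNT, few primes divide a non-zero integer
-/

set_option autoImplicit false

namespace Pool.Agent.WB

theorem CNT : CNT_stmt := by
  intro N ξ E M g S hN hξ hM hg hgE hS hl
  classical
  have hN1 : (1 : ℝ) < (N : ℝ) := by exact_mod_cast hN
  have hN0 : (0 : ℝ) < (N : ℝ) := by linarith
  set P : Finset ℕ := S.image fun e => (dt e.1 e.2).natAbs with hP
  have hPp : ∀ l ∈ P, l.Prime ∧ (N : ℝ) ^ ξ ≤ (l : ℝ) ∧ l ∣ g.natAbs := by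
    intro l hlP
    obtain ⟨e, he, rfl⟩ := Finset.mem_image.1 hlP
    obtain ⟨h1, h2, h3⟩ := hS e he
    exact ⟨h1, h2, Int.natAbs_dvd_natAbs.2 h3⟩
  have hdvd : (∏ l ∈ P, l) ∣ g.natAbs :=
    Finset.prod_primes_dvd g.natAbs (fun l h => (hPp l h).1.prime) (fun l h => (hPp l h).2.2)
  have hle : (∏ l ∈ P, l) ≤ g.natAbs := Nat.le_of_dvd (Int.natAbs_pos.2 hg) hdvd
  have hleR : ((∏ l ∈ P, l : ℕ) : ℝ) ≤ (N : ℝ) ^ E := by
    refine le_trans (Nat.cast_le.2 hle) ?_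
    have h : ((g.natAbs : ℕ) : ℝ) = |(g : ℝ)| := Nat.cast_natAbs g |>.trans (Int.cast_abs)
    rw [h]
    exact hgE
  have hprod : ((N : ℝ) ^ ξ) ^ P.card ≤ ((∏ l ∈ P, l : ℕ) : ℝ) := by
    rw [Nat.cast_prod, ← Finset.prod_const]
    refine Finset.prod_le_prod (fun i _ => (Real.rpow_pos_of_pos hN0 ξ).le) ?_
    intro l h
    exact (hPp l h).2.1
  have hexp : (N : ℝ) ^ (ξ * (P.card : ℝ)) ≤ (N : ℝ) ^ E := by
    rw [Real.rpow_mul hN0.le, Real.rpow_natCast]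
    exact le_trans hprod hleR
  have hcard : ξ * (P.card : ℝ) ≤ E := (Real.rpow_le_rpow_left_iff hN1).1 hexp
  have hcard2 : (P.card : ℝ) ≤ E / ξ := by
    rw [le_div_iff₀ hξ]
    linarith
  have hsum : (S.card : ℝ) = ∑ l ∈ P, ((S.filter fun e => (dt e.1 e.2).natAbs = l).card : ℝ) := by
    rw [← Nat.cast_sum, Nat.cast_inj]
    exact Finset.card_eq_sum_card_image (fun e : V3 × V3 => (dt e.1 e.2).natAbs) S
  rw [hsum]
  refine le_trans (Finset.sum_le_sum (fun l _ => hl l)) ?_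
  rw [Finset.sum_const, nsmul_eq_mul, mul_comm]
  exact mul_le_mul_of_nonneg_left hcard2 hM

end Pool.Agent.WB
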